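import Pool.Agent.H87.C3.Kit

set_option autoImplicit false

/-! # CGA: a primitive ideal of small norm in every class -/

namespace Pool.Agent.H69.C3

open NumberField Pool.Agent.H82.C3 Finset
open scoped Real nonZeroDivisors

variable {K : Type} [Field K] [NumberField K]

/-- an element generating the ring of integers -/
lemma cga_omega (h2 : Module.finrank ℚ K = 2) (d : ℕ) (hd : Squarefree d) (hd4 : d % 4 = 3)
    (hdisc : discr K = -(d : ℤ)) :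
    ∃ (ω : 𝓞 K) (e : ℤ), ω * ω = ω - (e : 𝓞 K) ∧ ∀ z : 𝓞 K, ∃ x y : ℤ, z = x + y * ω := by
  obtain ⟨s, hs⟩ := Pool.Agent.H87.C3.exists_s h2 d hdisc
  obtain ⟨e, he⟩ : ∃ e : ℤ, (1 : ℤ) ^ 2 + d * 1 ^ 2 = 4 * e := ⟨((1 + d) / 4 : ℕ), by omega⟩
  obtain ⟨ω, ω', hω, -, hmul, hadd⟩ := Pool.Agent.H82.CR.exists_el d s hs 1 1 e he
  refine ⟨ω, e, ?_, ?_⟩
  · have h1 : ω' = 1 - ω := by rw [eq_sub_iff_add_eq, add_comm, hadd]; simp
    rw [h1] at hmul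
    linear_combination -hmul
  · intro z
    obtain ⟨A, B, h1, -, h3⟩ := Pool.Agent.H87.C3.int_coords h2 d hd hd4 s hs z
    obtain ⟨x, hx⟩ : ∃ x : ℤ, A = B + 2 * x := ⟨(A - B) / 2, by omega⟩
    refine ⟨x, B, ?_⟩
    apply RingOfIntegers.coe_injective
    rw [map_add, map_mul, map_intCast, map_intCast]
    change (z : K) = (x : K) + (B : K) * (ω : K)
    rw [hω]
    rw [hx] at h1
    push_cast at h1 ⊢
    linear_combination (1 / 2 : K) * h1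

/-- Minkowski -/
lemma cga_mink (h2 : Module.finrank ℚ K = 2) (d : ℕ) (hdisc : discr K = -(d : ℤ))
    (c : ClassGroup (𝓞 K)) :
    ∃ (I : Ideal (𝓞 K)) (hI : I ∈ nonZeroDivisors (Ideal (𝓞 K))), ClassGroup.mk0 ⟨I, hI⟩ = c ∧
      (Ideal.absNorm I) ^ 2 ≤ d := by
  obtain ⟨⟨I, hI⟩, h1, h3⟩ := NumberField.exists_ideal_in_class_of_norm_le c
  refine ⟨I, hI, h1, ?_⟩
  rw [h2, hdisc] at h3
  have h4 : InfinitePlace.nrComplexPlaces K ≤ 1 := by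
    have := InfinitePlace.card_add_two_mul_card_eq_rank K
    omega
  have h5 : (4 / π : ℝ) ^ InfinitePlace.nrComplexPlaces K ≤ 2 := by
    have hpi := Real.pi_gt_three
    have h6 : (4 / π : ℝ) ≤ 2 := by
      rw [div_le_iff₀ (by positivity)]
      linarith
    rcases Nat.le_one_iff_eq_zero_or_eq_one.mp h4 with h | h
    · rw [h]; norm_num
    · rw [h]; simpa using h6
  have h6 : (|((-(d : ℤ) : ℤ) : ℝ)|) = d := by
    push_cast
    rw [abs_neg, abs_of_nonneg (by positivity)]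
  have h7 : (Ideal.absNorm I : ℝ) ≤ Real.sqrt d := by
    refine h3.trans ?_
    rw [h6]
    calc (4 / π : ℝ) ^ InfinitePlace.nrComplexPlaces K * ((Nat.factorial 2 : ℕ) / ((2 : ℕ) : ℝ) ^ 2 * Real.sqrt d)
        ≤ 2 * ((Nat.factorial 2 : ℕ) / ((2 : ℕ) : ℝ) ^ 2 * Real.sqrt d) := by gcongr
      _ = Real.sqrt d := by norm_num [Nat.factorial]; ring
  have h8 : (Ideal.absNorm I : ℝ) ^ 2 ≤ (d : ℝ) := by
    have h9 : (Real.sqrt (d : ℝ)) ^ 2 = (d : ℝ) := Real.sq_sqrt (by positivity)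
    rw [← h9]
    gcongr
  exact_mod_cast h8

/-- CGA -/
theorem t_CGA : S_CGA := by
  intro K _ _ d h2 hd hd4 h7 hdisc c
  classical
  obtain ⟨ω, e, hω2, hco⟩ := cga_omega h2 d hd hd4 hdisc
  obtain ⟨I₁, hI₁, hc₁, hn₁⟩ := cga_mink h2 d hdisc c
  have hex : ∃ n : ℕ, ∃ (I : Ideal (𝓞 K)) (hI : I ∈ nonZeroDivisors (Ideal (𝓞 K))),
      ClassGroup.mk0 ⟨I, hI⟩ = c ∧ Ideal.absNorm I = n := ⟨_, I₁, hI₁, hc₁, rfl⟩
  obtain ⟨I, hI, hc, hn⟩ := Nat.find_spec hex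
  have hmin : ∀ (J : Ideal (𝓞 K)) (hJ : J ∈ nonZeroDivisors (Ideal (𝓞 K))),
      ClassGroup.mk0 ⟨J, hJ⟩ = c → Ideal.absNorm I ≤ Ideal.absNorm J := by
    intro J hJ hcJ
    rw [hn]
    exact Nat.find_min' hex ⟨J, hJ, hcJ, rfl⟩
  have hI0 : I ≠ ⊥ := nonZeroDivisors.ne_zero hI
  have hN0 : Ideal.absNorm I ≠ 0 := Ideal.absNorm_ne_zero_of_nonZeroDivisors ⟨I, hI⟩
  refine ⟨I, hI, hc, ?_, ?_⟩
  · have := hmin I₁ hI₁ hc₁
    exact (Nat.pow_le_pow_left this 2).trans hn₁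
  -- the smallest positive `y`
  have hy : ∃ g : ℕ, 0 < g ∧ ∃ x : ℤ, (x : 𝓞 K) + ((g : ℤ) : 𝓞 K) * ω ∈ I := by
    refine ⟨Ideal.absNorm I, Nat.pos_of_ne_zero hN0, 0, ?_⟩
    have h1 : ((Ideal.absNorm I : ℕ) : 𝓞 K) ∈ I := Ideal.absNorm_mem I
    have h3 := I.mul_mem_right ω h1
    simpa using h3
  obtain ⟨hg0, x₀, hx₀⟩ := Nat.find_spec hy
  have hgmin : ∀ m : ℕ, 0 < m → (∃ x : ℤ, (x : 𝓞 K) + ((m : ℤ) : 𝓞 K) * ω ∈ I) → Nat.find hy ≤ m :=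
    fun m hm hx => Nat.find_min' hy ⟨hm, hx⟩
  generalize Nat.find hy = g at hg0 hx₀ hgmin
  have hgz : (0 : ℤ) < g := by exact_mod_cast hg0
  have hdy : ∀ x y : ℤ, (x : 𝓞 K) + (y : 𝓞 K) * ω ∈ I → (g : ℤ) ∣ y := by
    intro x y hxy
    by_contra hnd
    have h1 : 0 ≤ y % g := Int.emod_nonneg _ hgz.ne'
    have h3 : y % g < g := Int.emod_lt_of_pos _ hgz
    have h4 : y % g ≠ 0 := fun h => hnd (Int.dvd_of_emod_eq_zero h)
    obtain ⟨m, hm⟩ := Int.eq_ofNat_of_zero_le h1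
    have h5 : (x - (y / g) * x₀ : ℤ) + (((m : ℕ) : ℤ) : 𝓞 K) * ω ∈ I := by
      have h6 : ((x - (y / g) * x₀ : ℤ) : 𝓞 K) + (((m : ℕ) : ℤ) : 𝓞 K) * ω =
          ((x : 𝓞 K) + (y : 𝓞 K) * ω) - ((y / g : ℤ) : 𝓞 K) * ((x₀ : 𝓞 K) + ((g : ℤ) : 𝓞 K) * ω) := by
        have h7 : ((m : ℕ) : ℤ) = y - g * (y / g) := by
          rw [← hm, Int.emod_def]
        rw [h7]
        push_cast
        ring
      rw [h6]
      exact I.sub_mem hxy (I.mul_mem_left _ hx₀)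
    have h6 := hgmin m (by omega) ⟨_, h5⟩
    omega
  have hdx : ∀ x y : ℤ, (x : 𝓞 K) + (y : 𝓞 K) * ω ∈ I → (g : ℤ) ∣ x := by
    intro x y hxy
    have h1 : ((-(y * e) : ℤ) : 𝓞 K) + ((x + y : ℤ) : 𝓞 K) * ω ∈ I := by
      have h3 : ((-(y * e) : ℤ) : 𝓞 K) + ((x + y : ℤ) : 𝓞 K) * ω = ((x : 𝓞 K) + (y : 𝓞 K) * ω) * ω := by
        push_cast
        linear_combination (-(y : 𝓞 K)) * hω2
      rw [h3]
      exact I.mul_mem_right ω hxy
    have h3 := hdy _ _ h1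
    have h4 := hdy _ _ hxy
    have : x = (x + y) - y := by ring
    rw [this]
    exact dvd_sub h3 h4
  have hg1 : g = 1 := by
    by_contra hg1
    have hle : I ≤ Ideal.span {((g : ℕ) : 𝓞 K)} := by
      intro z hz
      obtain ⟨x, y, rfl⟩ := hco z
      obtain ⟨x', hx'⟩ := hdx x y hz
      obtain ⟨y', hy'⟩ := hdy x y hz
      rw [Ideal.mem_span_singleton]
      refine ⟨(x' : 𝓞 K) + y' * ω, ?_⟩
      rw [hx', hy']
      push_cast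
      ring
    obtain ⟨J, hJ⟩ := Ideal.dvd_iff_le.mpr hle
    have hg' : ((g : ℕ) : 𝓞 K) ≠ 0 := by exact_mod_cast hg0.ne'
    have hs0 : Ideal.span {((g : ℕ) : 𝓞 K)} ≠ 0 := by
      rw [Ne, Ideal.zero_eq_bot, Ideal.span_singleton_eq_bot]
      exact hg'
    have hJ0 : J ≠ 0 := by
      rintro rfl
      rw [mul_zero] at hJ
      exact hI0 hJ
    have hsm : Ideal.span {((g : ℕ) : 𝓞 K)} ∈ nonZeroDivisors (Ideal (𝓞 K)) :=
      mem_nonZeroDivisors_of_ne_zero hs0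
    have hJm : J ∈ nonZeroDivisors (Ideal (𝓞 K)) := mem_nonZeroDivisors_of_ne_zero hJ0
    have hcJ : ClassGroup.mk0 ⟨J, hJm⟩ = c := by
      have h1 : (⟨I, hI⟩ : nonZeroDivisors (Ideal (𝓞 K))) = ⟨_, hsm⟩ * ⟨J, hJm⟩ := by
        apply Subtype.ext
        exact hJ
      rw [h1, map_mul] at hc
      have h3 : ClassGroup.mk0 (⟨_, hsm⟩ : nonZeroDivisors (Ideal (𝓞 K))) = 1 := by
        rw [ClassGroup.mk0_eq_one_iff]
        exact ⟨⟨_, rfl⟩⟩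
      rw [h3, one_mul] at hc
      exact hc
    have h1 := hmin J hJm hcJ
    have h3 : Ideal.absNorm I = g ^ 2 * Ideal.absNorm J := by
      rw [hJ, map_mul, Ideal.absNorm_span_natCast, RingOfIntegers.rank, h2]
    have h4 : Ideal.absNorm J ≠ 0 := Ideal.absNorm_ne_zero_of_nonZeroDivisors ⟨J, hJm⟩
    have h5 : 2 ≤ g := by omega
    have h6 : 4 ≤ g ^ 2 := by nlinarith
    have h8 : 1 ≤ Ideal.absNorm J := Nat.pos_of_ne_zero h4
    nlinarith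
  -- `ℤ → 𝓞 / I` is onto
  rw [hg1] at hx₀
  have hsurj : ∀ z : 𝓞 K ⧸ I, z ∈ AddSubgroup.zmultiples (1 : 𝓞 K ⧸ I) := by
    intro z
    obtain ⟨z, rfl⟩ := Ideal.Quotient.mk_surjective z
    obtain ⟨x, y, rfl⟩ := hco z
    rw [AddSubgroup.mem_zmultiples_iff]
    refine ⟨x - y * x₀, ?_⟩
    have h1 : (x - y * x₀) • (1 : 𝓞 K ⧸ I) = Ideal.Quotient.mk I ((x - y * x₀ : ℤ) : 𝓞 K) := by
      rw [map_intCast, zsmul_one]
    rw [h1, Ideal.Quotient.eq]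
    have h3 : ((x - y * x₀ : ℤ) : 𝓞 K) - ((x : 𝓞 K) + y * ω) =
        -((y : 𝓞 K) * ((x₀ : 𝓞 K) + (((1 : ℕ) : ℤ) : 𝓞 K) * ω)) := by
      push_cast
      ring
    rw [h3]
    exact I.neg_mem (I.mul_mem_left _ hx₀)
  have hord : addOrderOf (1 : 𝓞 K ⧸ I) = Ideal.absNorm I := by
    rw [addOrderOf_eq_card_of_forall_mem_zmultiples hsurj, Ideal.absNorm_apply, Submodule.cardQuot_apply]
  intro k hk
  rw [← hord, addOrderOf_dvd_iff_zsmul_eq_zero]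
  rw [zsmul_one, ← map_intCast (Ideal.Quotient.mk I), Ideal.Quotient.eq_zero_iff_mem]
  exact hk

end Pool.Agent.H69.C3
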