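import Pool.Agent.H82.C3.Stm
import Pool.Graph.R_seed8.H510R2.Div

set_option autoImplicit false

/-! # REP: uniform bound for the number of representations by `X² + k Y²` -/

namespace Pool.Agent.H69.C3

open Pool.Agent.H82.C3 Finset

/-- `c² ∣ 4 s` with `s` squarefree implies `c ∣ 2` -/
lemma dvd_two_of_sq {c s : ℕ} (hs : Squarefree s) (h : c ^ 2 ∣ 4 * s) : c ∣ 2 := by
  rcases Nat.even_or_odd c with he | ho
  · obtain ⟨m, hm⟩ := he
    have hm2 : c = 2 * m := by omega
    subst hm2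
    have h1 : m * m ∣ s := by
      have h2 : 4 * (m * m) ∣ 4 * s := by
        rw [show 4 * (m * m) = (2 * m) ^ 2 by ring]; exact h
      exact Nat.dvd_of_mul_dvd_mul_left (by norm_num) h2
    have h3 : m = 1 := Nat.isUnit_iff.mp (hs m h1)
    rw [h3]
  · have hc4 : Nat.Coprime (c ^ 2) 4 := by
      have : Nat.Coprime c 2 := (Nat.coprime_two_right).mpr ho
      have h4 : Nat.Coprime (c ^ 2) (2 ^ 2) := Nat.Coprime.pow _ _ this
      simpa using h4
    have h1 : c ^ 2 ∣ s := hc4.dvd_of_dvd_mul_left h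
    have h3 : c = 1 := Nat.isUnit_iff.mp (hs c (by rw [← sq]; exact h1))
    rw [h3]; exact one_dvd _

/-- primitive representations -/
lemma prim_card (k N : ℕ) (hk : 1 ≤ k) (hN : 1 ≤ N) (hsq : Squarefree (Nat.gcd k N))
    (S : Finset (ℤ × ℤ)) (hS : ∀ z ∈ S, z.1 ^ 2 + k * z.2 ^ 2 = N ∧ IsCoprime z.1 z.2) :
    S.card ≤ 10 * N.divisors.card := by
  classical
  rcases S.eq_empty_or_nonempty with rfl | ⟨z0, hz0⟩
  · simp
  have hNz : (0 : ℤ) < N := by exact_mod_cast hN
  have hkz : (0 : ℤ) < k := by exact_mod_cast hk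
  -- Y is coprime to N
  have hYN : ∀ z ∈ S, IsCoprime (N : ℤ) z.2 := by
    intro z hz
    obtain ⟨h1, h2⟩ := hS z hz
    rw [← h1]
    have h3 : IsCoprime (z.1 ^ 2) z.2 := h2.pow_left
    have h4 : z.1 ^ 2 + k * z.2 ^ 2 = z.1 ^ 2 + z.2 * (k * z.2) := by ring
    rw [h4]
    exact h3.add_mul_left_left _
  obtain ⟨X0, Y0⟩ := z0
  have h0 := hS _ hz0
  have h0N := hYN _ hz0
  simp only at h0 h0N
  set φ : ℤ × ℤ → ℕ := fun z => Int.gcd (z.1 * Y0 - z.2 * X0) N with hφ
  have himg : S.image φ ⊆ N.divisors := by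
    intro g hg
    obtain ⟨z, hz, rfl⟩ := mem_image.1 hg
    rw [Nat.mem_divisors]
    refine ⟨?_, by omega⟩
    have : ((φ z : ℕ) : ℤ) ∣ (N : ℤ) := Int.gcd_dvd_right _ _
    exact_mod_cast this
  have hfib : ∀ g ∈ S.image φ, (S.filter (fun z => φ z = g)).card ≤ 10 := by
    intro g hg
    obtain ⟨z1, hz1, hz1g⟩ := mem_image.1 hg
    obtain ⟨X1, Y1⟩ := z1
    have h1 := hS _ hz1
    have h1N := hYN _ hz1
    simp only at h1 h1N
    -- the key divisibility
    have hgN : (g : ℤ) ∣ N := by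
      rw [← hz1g]; exact Int.gcd_dvd_right _ _
    obtain ⟨g', hg'⟩ := hgN
    have hg0 : (g : ℤ) ≠ 0 := by
      rintro h
      rw [h, zero_mul] at hg'
      omega
    have hA : ∀ z ∈ S, φ z = g → (g : ℤ) ∣ z.1 * Y0 - z.2 * X0 ∧ g' ∣ z.1 * Y0 + z.2 * X0 := by
      intro z hz hzg
      have e1 : (g : ℤ) ∣ z.1 * Y0 - z.2 * X0 := by
        rw [← hzg]; exact Int.gcd_dvd_left _ _
      refine ⟨e1, ?_⟩
      obtain ⟨w, hw⟩ := e1
      have e2 : IsCoprime w g' := by
        rw [Int.isCoprime_iff_gcd_eq_one]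
        have e3 : Int.gcd (z.1 * Y0 - z.2 * X0) N = g := hzg
        rw [hw, hg', Int.gcd_mul_left] at e3
        have e4 : (g : ℤ).natAbs = g := Int.natAbs_natCast g
        rw [e4] at e3
        have hgpos : 0 < g := by
          rcases Nat.eq_zero_or_pos g with h | h
          · exact absurd (by exact_mod_cast h) hg0
          · exact h
        exact Nat.eq_of_mul_eq_mul_left hgpos (by rw [e3, mul_one])
      have e5 : (z.1 * Y0 - z.2 * X0) * (z.1 * Y0 + z.2 * X0) = N * (Y0 ^ 2 - z.2 ^ 2) := by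
        have := (hS z hz).1
        linear_combination Y0 ^ 2 * this - z.2 ^ 2 * h0.1
      rw [hw, hg'] at e5
      have e6 : w * (z.1 * Y0 + z.2 * X0) = g' * (Y0 ^ 2 - z.2 ^ 2) := by
        apply mul_left_cancel₀ hg0
        linear_combination e5
      exact e2.symm.dvd_of_dvd_mul_left ⟨_, e6⟩
    have hcN : ∀ z ∈ S, φ z = g → (N : ℤ) ∣ 2 * (z.1 * Y1 - X1 * z.2) := by
      intro z hz hzg
      obtain ⟨a1, a2⟩ := hA z hz hzg
      obtain ⟨b1, b2⟩ := hA _ hz1 hz1g
      simp only at b1 b2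
      have hz' := hS z hz
      have hzN := hYN z hz
      set W := z.1 * Y1 - X1 * z.2 with hW
      have c1 : (g : ℤ) ∣ W := by
        have d1 : (g : ℤ) ∣ Y0 * W := by
          have : Y0 * W = Y1 * (z.1 * Y0 - z.2 * X0) - z.2 * (X1 * Y0 - Y1 * X0) := by
            rw [hW]; ring
          rw [this]
          exact dvd_sub (Dvd.dvd.mul_left a1 _) (Dvd.dvd.mul_left b1 _)
        exact (h0N.of_isCoprime_of_dvd_left ⟨g', hg'⟩).dvd_of_dvd_mul_left d1
      have c2 : g' ∣ W := by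
        have d1 : g' ∣ Y0 * W := by
          have : Y0 * W = Y1 * (z.1 * Y0 + z.2 * X0) - z.2 * (X1 * Y0 + Y1 * X0) := by
            rw [hW]; ring
          rw [this]
          exact dvd_sub (Dvd.dvd.mul_left a2 _) (Dvd.dvd.mul_left b2 _)
        exact (h0N.of_isCoprime_of_dvd_left ⟨g, by rw [hg']; ring⟩).dvd_of_dvd_mul_left d1
      -- the common divisor of `g` and `g'` divides `2`
      set c : ℕ := Int.gcd g g' with hc
      have hcg : (c : ℤ) ∣ g := Int.gcd_dvd_left _ _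
      have hcg' : (c : ℤ) ∣ g' := Int.gcd_dvd_right _ _
      have hc2N : (c : ℤ) ^ 2 ∣ N := by
        rw [hg', sq]; exact mul_dvd_mul hcg hcg'
      have hcN : (c : ℤ) ∣ N := (dvd_pow_self _ two_ne_zero).trans hc2N
      have hcY0 : IsCoprime (c : ℤ) Y0 := h0N.of_isCoprime_of_dvd_left hcN
      have hcY : IsCoprime (c : ℤ) z.2 := hzN.of_isCoprime_of_dvd_left hcN
      have hc2X : (c : ℤ) ∣ 2 * z.1 := by
        have d1 : (c : ℤ) ∣ Y0 * (2 * z.1) := by
          have : Y0 * (2 * z.1) = (z.1 * Y0 - z.2 * X0) + (z.1 * Y0 + z.2 * X0) := by ring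
          rw [this]
          exact dvd_add (hcg.trans a1) (hcg'.trans a2)
        exact hcY0.dvd_of_dvd_mul_left d1
      have hc4k : (c : ℤ) ^ 2 ∣ 4 * k := by
        have d1 : (c : ℤ) ^ 2 ∣ (2 * z.1) ^ 2 := pow_dvd_pow_of_dvd hc2X 2
        have d2 : (c : ℤ) ^ 2 ∣ z.2 ^ 2 * (4 * k) := by
          have : z.2 ^ 2 * (4 * k) = 4 * N - (2 * z.1) ^ 2 := by
            linear_combination 4 * hz'.1
          rw [this]
          exact dvd_sub (Dvd.dvd.mul_left hc2N _) d1
        exact (hcY.pow).dvd_of_dvd_mul_left d2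
      have hcdvd : c ∣ 2 := by
        apply dvd_two_of_sq hsq
        have d1 : c ^ 2 ∣ 4 * k := by exact_mod_cast hc4k
        have d2 : c ^ 2 ∣ 4 * N := by
          have : c ^ 2 ∣ N := by exact_mod_cast hc2N
          exact this.mul_left _
        rw [← Nat.gcd_mul_left]
        exact Nat.dvd_gcd d1 d2
      -- `N = g g' ∣ c W ∣ 2 W`
      obtain ⟨u, hu⟩ := c1
      have e1 : (N : ℤ) ∣ c * W := by
        have hb : (c : ℤ) = g * Int.gcdA g g' + g' * Int.gcdB g g' := Int.gcd_eq_gcd_ab _ _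
        obtain ⟨v, hv⟩ := c2
        refine ⟨Int.gcdA g g' * v + Int.gcdB g g' * u, ?_⟩
        rw [hb, hg', add_mul]
        have f1 : (g : ℤ) * Int.gcdA g g' * W = g * g' * (Int.gcdA g g' * v) := by
          rw [hv]; ring
        have f2 : g' * Int.gcdB g g' * W = g * g' * (Int.gcdB g g' * u) := by
          rw [hu]; ring
        rw [f1, f2]; ring
      have e2 : (c : ℤ) * W ∣ 2 * W := mul_dvd_mul_right (by exact_mod_cast hcdvd) W
      exact e1.trans e2
    -- the injection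
    have hinj : ∀ z ∈ S.filter (fun z => φ z = g), ∀ z' ∈ S.filter (fun z => φ z = g),
        (2 * (z.1 * Y1 - X1 * z.2) / (N : ℤ), decide (0 ≤ z.1 * X1 + k * z.2 * Y1)) =
        (2 * (z'.1 * Y1 - X1 * z'.2) / (N : ℤ), decide (0 ≤ z'.1 * X1 + k * z'.2 * Y1)) → z = z' := by
      intro z hz z' hz' he
      rw [mem_filter] at hz hz'
      obtain ⟨u, hu⟩ := hcN z hz.1 hz.2
      obtain ⟨u', hu'⟩ := hcN z' hz'.1 hz'.2
      rw [hu, hu', Prod.mk.injEq, Int.mul_ediv_cancel_left _ hNz.ne',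
        Int.mul_ediv_cancel_left _ hNz.ne'] at he
      obtain ⟨e1, e2⟩ := he
      have e3 : z.1 * Y1 - X1 * z.2 = z'.1 * Y1 - X1 * z'.2 := by
        rw [e1] at hu; omega
      have q1 := (hS z hz.1).1
      have q2 := (hS z' hz'.1).1
      have e4 : (z.1 * X1 + k * z.2 * Y1) ^ 2 = (z'.1 * X1 + k * z'.2 * Y1) ^ 2 := by
        have f1 : (z.1 * X1 + k * z.2 * Y1) ^ 2 + k * (z.1 * Y1 - X1 * z.2) ^ 2 = N * N := by
          linear_combination (X1 ^ 2 + k * Y1 ^ 2) * q1 + N * h1.1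
        have f2 : (z'.1 * X1 + k * z'.2 * Y1) ^ 2 + k * (z'.1 * Y1 - X1 * z'.2) ^ 2 = N * N := by
          linear_combination (X1 ^ 2 + k * Y1 ^ 2) * q2 + N * h1.1
        rw [e3] at f1
        linarith
      have e5 : z.1 * X1 + k * z.2 * Y1 = z'.1 * X1 + k * z'.2 * Y1 := by
        have e6 : (0 ≤ z.1 * X1 + k * z.2 * Y1) ↔ (0 ≤ z'.1 * X1 + k * z'.2 * Y1) := by
          exact decide_eq_decide.mp e2
        rcases sq_eq_sq_iff_eq_or_eq_neg.mp e4 with h | h
        · exact h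
        · by_cases h7 : 0 ≤ z.1 * X1 + k * z.2 * Y1
          · have h8 := e6.1 h7
            omega
          · have h8 : ¬ 0 ≤ z'.1 * X1 + k * z'.2 * Y1 := fun h9 => h7 (e6.2 h9)
            omega
      ext
      · apply mul_left_cancel₀ hNz.ne'
        linear_combination (-z.1) * h1.1 + z'.1 * h1.1 + X1 * e5 + k * Y1 * e3
      · apply mul_left_cancel₀ hNz.ne'
        linear_combination (-z.2) * h1.1 + z'.2 * h1.1 + Y1 * e5 - X1 * e3
    have hmaps : ∀ z ∈ S.filter (fun z => φ z = g),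
        (2 * (z.1 * Y1 - X1 * z.2) / (N : ℤ), decide (0 ≤ z.1 * X1 + k * z.2 * Y1)) ∈
        (Finset.Icc (-2 : ℤ) 2) ×ˢ (Finset.univ : Finset Bool) := by
      intro z hz
      rw [mem_filter] at hz
      obtain ⟨u, hu⟩ := hcN z hz.1 hz.2
      have q1 := (hS z hz.1).1
      have f1 : (z.1 * X1 + k * z.2 * Y1) ^ 2 + k * (z.1 * Y1 - X1 * z.2) ^ 2 = N * N := by
        linear_combination (X1 ^ 2 + k * Y1 ^ 2) * q1 + N * h1.1
      rw [hu, Int.mul_ediv_cancel_left _ hNz.ne']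
      rw [mem_product, mem_Icc]
      have f2 : (z.1 * Y1 - X1 * z.2) ^ 2 ≤ (N : ℤ) ^ 2 := by nlinarith [sq_nonneg (z.1 * Y1 - X1 * z.2), sq_nonneg (z.1 * X1 + k * z.2 * Y1)]
      have f3 : u ^ 2 ≤ 4 := by
        have f4 : (N : ℤ) ^ 2 * u ^ 2 ≤ N ^ 2 * 4 := by
          have : (N : ℤ) ^ 2 * u ^ 2 = 4 * (z.1 * Y1 - X1 * z.2) ^ 2 := by
            rw [← mul_pow, ← hu]; ring
          rw [this]; linarith
        exact le_of_mul_le_mul_left f4 (by positivity)
      refine ⟨⟨by nlinarith, by nlinarith⟩, mem_univ _⟩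
    have := Finset.card_le_card_of_injOn _ hmaps (by
      intro z hz z' hz' he
      exact hinj z (by simpa using hz) z' (by simpa using hz') he)
    refine this.trans ?_
    rw [card_product]
    simp
  calc S.card ≤ 10 * (S.image φ).card := Finset.card_le_mul_card_image S 10 hfib
    _ ≤ 10 * N.divisors.card := Nat.mul_le_mul_left _ (card_le_card himg)

/-- all the representations, `gcd(k, N)` squarefree -/
lemma sqf_card (k N : ℕ) (hk : 1 ≤ k) (hN : 1 ≤ N) (hsq : Squarefree (Nat.gcd k N))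
    (S : Finset (ℤ × ℤ)) (hS : ∀ z ∈ S, z.1 ^ 2 + k * z.2 ^ 2 = N) :
    S.card ≤ 10 * N.divisors.card * N.divisors.card := by
  classical
  set φ : ℤ × ℤ → ℕ := fun z => Int.gcd z.1 z.2 with hφ
  have hdiv : ∀ z ∈ S, (φ z) ^ 2 ∣ N := by
    intro z hz
    have h1 : ((φ z : ℕ) : ℤ) ^ 2 ∣ N := by
      rw [← hS z hz]
      have a1 : ((φ z : ℕ) : ℤ) ∣ z.1 := Int.gcd_dvd_left _ _
      have a2 : ((φ z : ℕ) : ℤ) ∣ z.2 := Int.gcd_dvd_right _ _
      exact dvd_add (pow_dvd_pow_of_dvd a1 2) (Dvd.dvd.mul_left (pow_dvd_pow_of_dvd a2 2) _)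
    exact_mod_cast h1
  have himg : S.image φ ⊆ N.divisors := by
    intro g hg
    obtain ⟨z, hz, rfl⟩ := mem_image.1 hg
    rw [Nat.mem_divisors]
    exact ⟨(dvd_pow_self _ two_ne_zero).trans (hdiv z hz), by omega⟩
  have hfib : ∀ g ∈ S.image φ, (S.filter (fun z => φ z = g)).card ≤ 10 * N.divisors.card := by
    intro g hg
    obtain ⟨z1, hz1, hz1g⟩ := mem_image.1 hg
    obtain ⟨N', hN'⟩ := hdiv z1 hz1
    rw [hz1g] at hN'
    have hg0 : 0 < g := by
      rcases Nat.eq_zero_or_pos g with h | h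
      · rw [h] at hN'; simp at hN'; omega
      · exact h
    have hN0 : 1 ≤ N' := by
      rcases Nat.eq_zero_or_pos N' with h | h
      · rw [h] at hN'; simp at hN'; omega
      · exact h
    have hsq' : Squarefree (Nat.gcd k N') := by
      apply hsq.squarefree_of_dvd
      exact Nat.gcd_dvd_gcd_of_dvd_right _ ⟨g ^ 2, by rw [hN']; ring⟩
    have hgz : (g : ℤ) ≠ 0 := by exact_mod_cast hg0.ne'
    have hdec : ∀ z ∈ S.filter (fun z => φ z = g), z.1 = g * (z.1 / g) ∧ z.2 = g * (z.2 / g) := by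
      intro z hz
      rw [mem_filter] at hz
      have a1 : (g : ℤ) ∣ z.1 := by rw [← hz.2]; exact Int.gcd_dvd_left _ _
      have a2 : (g : ℤ) ∣ z.2 := by rw [← hz.2]; exact Int.gcd_dvd_right _ _
      exact ⟨(Int.mul_ediv_cancel' a1).symm, (Int.mul_ediv_cancel' a2).symm⟩
    have hcard : (S.filter (fun z => φ z = g)).card =
        ((S.filter (fun z => φ z = g)).image (fun z : ℤ × ℤ => (z.1 / g, z.2 / g))).card := by
      symm
      apply card_image_of_injOn
      intro z hz z' hz' he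
      have hz2 := hdec z (by simpa using hz)
      have hz2' := hdec z' (by simpa using hz')
      simp only [Prod.mk.injEq] at he
      ext
      · rw [hz2.1, hz2'.1, he.1]
      · rw [hz2.2, hz2'.2, he.2]
    rw [hcard]
    refine (prim_card k N' hk hN0 hsq' _ ?_).trans ?_
    · intro w hw
      obtain ⟨z, hz, rfl⟩ := mem_image.1 hw
      have hz2 := hdec z hz
      rw [mem_filter] at hz
      constructor
      · have h1 := hS z hz.1
        have h2 : (g : ℤ) ^ 2 * ((z.1 / g) ^ 2 + k * (z.2 / g) ^ 2) = g ^ 2 * N' := by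
          have h3 : (N : ℤ) = g ^ 2 * N' := by exact_mod_cast hN'
          rw [← h3, ← h1]
          conv_rhs => rw [hz2.1, hz2.2]
          ring
        exact mul_left_cancel₀ (pow_ne_zero 2 hgz) h2
      · rw [Int.isCoprime_iff_gcd_eq_one]
        have h1 : Int.gcd z.1 z.2 = g := hz.2
        rw [hz2.1, hz2.2, Int.gcd_mul_left, Int.natAbs_natCast] at h1
        exact Nat.eq_of_mul_eq_mul_left hg0 (by rw [h1, mul_one])
    · apply Nat.mul_le_mul_left
      apply card_le_card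
      apply Nat.divisors_subset_of_dvd (by omega)
      exact ⟨g ^ 2, by rw [hN']; ring⟩
  calc S.card ≤ (10 * N.divisors.card) * (S.image φ).card := Finset.card_le_mul_card_image S _ hfib
    _ ≤ (10 * N.divisors.card) * N.divisors.card := Nat.mul_le_mul_left _ (card_le_card himg)

/-- REP -/
theorem t_REP : S_REP := by
  classical
  intro ε hε
  obtain ⟨C, hC, hdiv⟩ := Pool.Agent.H510R2.divisor_bound (ε / 2) (by positivity)
  refine ⟨10 * C * C, by positivity, ?_⟩
  intro k N hk hN S hS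
  obtain ⟨a, b, hab, hsq⟩ := Nat.sq_mul_squarefree (Nat.gcd k N)
  have hg0 : 0 < Nat.gcd k N := Nat.gcd_pos_of_pos_left _ hk
  have hb0 : 0 < b := by
    rcases Nat.eq_zero_or_pos b with h | h
    · rw [h] at hab; simp at hab; omega
    · exact h
  obtain ⟨k', hk'⟩ : b ^ 2 ∣ k := (Dvd.intro _ hab).trans (Nat.gcd_dvd_left k N)
  obtain ⟨N', hN'⟩ : b ^ 2 ∣ N := (Dvd.intro _ hab).trans (Nat.gcd_dvd_right k N)
  have hk0 : 1 ≤ k' := by
    rcases Nat.eq_zero_or_pos k' with h | h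
    · rw [h] at hk'; simp at hk'; omega
    · exact h
  have hN0 : 1 ≤ N' := by
    rcases Nat.eq_zero_or_pos N' with h | h
    · rw [h] at hN'; simp at hN'; omega
    · exact h
  have hsq' : Squarefree (Nat.gcd k' N') := by
    have h1 : Nat.gcd k' N' = a := by
      rw [hk', hN', Nat.gcd_mul_left] at hab
      exact (Nat.eq_of_mul_eq_mul_left (by positivity) hab).symm
    rw [h1]; exact hsq
  have hbz : (b : ℤ) ≠ 0 := by exact_mod_cast hb0.ne'
  have hkz : (k : ℤ) = b ^ 2 * k' := by exact_mod_cast hk'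
  have hNz : (N : ℤ) = b ^ 2 * N' := by exact_mod_cast hN'
  have hdec : ∀ z ∈ S, z.1 = b * (z.1 / b) := by
    intro z hz
    have h1 : (b : ℤ) ^ 2 ∣ z.1 ^ 2 := by
      refine ⟨N' - k' * z.2 ^ 2, ?_⟩
      have := hS z hz
      rw [hkz, hNz] at this
      linear_combination this
    have h2 : (b : ℤ) ∣ z.1 := (Int.pow_dvd_pow_iff two_ne_zero).1 h1
    exact (Int.mul_ediv_cancel' h2).symm
  have hcard : S.card = (S.image (fun z : ℤ × ℤ => (z.1 / b, z.2))).card := by
    symm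
    apply card_image_of_injOn
    intro z hz z' hz' he
    simp only [Prod.mk.injEq] at he
    ext
    · rw [hdec z (by simpa using hz), hdec z' (by simpa using hz'), he.1]
    · exact he.2
  have h1 : S.card ≤ 10 * N'.divisors.card * N'.divisors.card := by
    rw [hcard]
    apply sqf_card k' N' hk0 hN0 hsq'
    intro w hw
    obtain ⟨z, hz, rfl⟩ := mem_image.1 hw
    have h2 := hS z hz
    have h3 := hdec z hz
    have h4 : (b : ℤ) ^ 2 * ((z.1 / b) ^ 2 + k' * z.2 ^ 2) = b ^ 2 * N' := by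
      rw [← hNz, ← h2, hkz]
      conv_rhs => rw [h3]
      ring
    exact mul_left_cancel₀ (pow_ne_zero 2 hbz) h4
  have h2 : (S.card : ℝ) ≤ 10 * (N'.divisors.card : ℝ) * (N'.divisors.card : ℝ) := by
    exact_mod_cast h1
  have h3 := hdiv N' hN0
  have h4 : (N' : ℝ) ^ (ε / 2) ≤ (N : ℝ) ^ (ε / 2) := by
    apply Real.rpow_le_rpow (by positivity) _ (by positivity)
    have : N' ≤ N := by
      rw [hN']
      exact Nat.le_mul_of_pos_left _ (by positivity)
    exact_mod_cast this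
  have h5 : (N'.divisors.card : ℝ) ≤ C * (N : ℝ) ^ (ε / 2) :=
    h3.trans (mul_le_mul_of_nonneg_left h4 hC.le)
  have hNpos : (0 : ℝ) < N := by exact_mod_cast hN
  calc (S.card : ℝ) ≤ 10 * (N'.divisors.card : ℝ) * (N'.divisors.card : ℝ) := h2
    _ ≤ 10 * (C * (N : ℝ) ^ (ε / 2)) * (C * (N : ℝ) ^ (ε / 2)) := by gcongr
    _ = 10 * C * C * ((N : ℝ) ^ (ε / 2) * (N : ℝ) ^ (ε / 2)) := by ring
    _ = 10 * C * C * (N : ℝ) ^ ε := by
      rw [← Real.rpow_add hNpos]
      congr 2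
      ring

end Pool.Agent.H69.C3
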